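import Mathlib

/-!
# Trees given by parent pointers
-/

set_option autoImplicit false

open Finset

namespace Pool.Agent.Q262.Tree

/-- The graph on `Fin n` in which every `v ≠ 0` is joined to its parent `par v`. -/
def parentGraph (n : ℕ) (par : ℕ → ℕ) : SimpleGraph (Fin n) where
  Adj u v := u ≠ v ∧ ((0 < u.val ∧ par u.val = v.val) ∨ (0 < v.val ∧ par v.val = u.val))
  symm := ⟨fun _ _ h => ⟨h.1.symm, h.2.symm⟩⟩
  loopless := ⟨fun _ h => h.1 rfl⟩

instance (n : ℕ) (par : ℕ → ℕ) : DecidableRel (parentGraph n par).Adj := fun u v =>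
  inferInstanceAs (Decidable (u ≠ v ∧ ((0 < u.val ∧ par u.val = v.val) ∨
    (0 < v.val ∧ par v.val = u.val))))

variable {n : ℕ} {par : ℕ → ℕ}

lemma adj_parent (hpar : ∀ v, 0 < v → par v < v) (v : ℕ) (hv : v < n) (h0 : 0 < v) :
    (parentGraph n par).Adj ⟨v, hv⟩ ⟨par v, (hpar v h0).trans hv⟩ := by
  refine ⟨?_, Or.inl ⟨h0, rfl⟩⟩
  intro h
  have := hpar v h0
  rw [Fin.mk.injEq] at h
  omega

lemma connected (hpar : ∀ v, 0 < v → par v < v) (hn : 0 < n) : (parentGraph n par).Connected := by
  have key : ∀ v (hv : v < n), (parentGraph n par).Reachable ⟨v, hv⟩ ⟨0, hn⟩ := by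
    intro v
    induction v using Nat.strong_induction_on with
    | _ v ih =>
      intro hv
      rcases Nat.eq_zero_or_pos v with h | h
      · subst h
        exact SimpleGraph.Reachable.refl _
      · exact (adj_parent hpar v hv h).reachable.trans (ih _ (hpar v h) _)
  have : Nonempty (Fin n) := ⟨⟨0, hn⟩⟩
  exact ⟨fun u v => (key u.val u.isLt).trans (key v.val v.isLt).symm⟩

lemma isTree (hpar : ∀ v, 0 < v → par v < v) (hn : 0 < n) : (parentGraph n par).IsTree := by
  classical
  rw [SimpleGraph.isTree_iff_connected_and_card]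
  refine ⟨connected hpar hn, ?_⟩
  have hcard : Nat.card (parentGraph n par).edgeSet = n - 1 := by
    have hb : Function.Bijective (fun v : {v : Fin n // 0 < v.val} =>
        (⟨s(v.1, ⟨par v.1.val, (hpar v.1.val v.2).trans v.1.isLt⟩),
          by
            rw [SimpleGraph.mem_edgeSet]
            exact adj_parent hpar v.1.val v.1.isLt v.2⟩ : (parentGraph n par).edgeSet)) := by
      constructor
      · rintro ⟨u, hu⟩ ⟨v, hv⟩ h
        simp only [Subtype.mk.injEq] at h ⊢
        rw [Sym2.eq_iff] at h
        rcases h with h | h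
        · exact h.1
        · exfalso
          have h1 := congrArg Fin.val h.1
          have h2 := congrArg Fin.val h.2
          simp only at h1 h2
          have h3 := hpar u.val hu
          have h4 := hpar v.val hv
          omega
      · rintro ⟨e, he⟩
        induction e using Sym2.ind with
        | _ u v =>
          rw [SimpleGraph.mem_edgeSet] at he
          rcases he.2 with h | h
          · refine ⟨⟨u, h.1⟩, ?_⟩
            simp only [Subtype.mk.injEq]
            rw [Sym2.eq_iff]
            left
            exact ⟨rfl, Fin.ext h.2⟩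
          · refine ⟨⟨v, h.1⟩, ?_⟩
            simp only [Subtype.mk.injEq]
            rw [Sym2.eq_iff]
            right
            exact ⟨rfl, Fin.ext h.2⟩
    rw [← Nat.card_congr (Equiv.ofBijective _ hb), Nat.card_eq_fintype_card, Fintype.card_subtype]
    obtain ⟨m, rfl⟩ : ∃ m, n = m + 1 := ⟨n - 1, by omega⟩
    have : (univ.filter (fun x : Fin (m + 1) => 0 < x.val)) = univ.erase 0 := by
      ext x
      simp only [mem_filter, mem_univ, true_and, mem_erase, and_true, ne_eq]
      rw [Fin.ext_iff, Fin.val_zero]
      omega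
    rw [this, card_erase_of_mem (mem_univ _)]
    simp
  rw [hcard]
  simp
  omega

/-- A function that grows by at most one along edges bounds distances from below. -/
lemma le_dist {V : Type*} {G : SimpleGraph V} (hG : G.Connected) (φ : V → ℤ)
    (h : ∀ u v, G.Adj u v → φ u ≤ φ v + 1) (u v : V) : φ u - φ v ≤ G.dist u v := by
  obtain ⟨p, hp⟩ := hG.exists_walk_length_eq_dist u v
  rw [← hp]
  clear hp
  induction p with
  | nil => simp
  | cons hadj p ih =>
    rw [SimpleGraph.Walk.length_cons]
    have := h _ _ hadj
    push_cast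
    linarith

/-- The depth bounds the distance to the root from above. -/
lemma dist_root_le (hpar : ∀ v, 0 < v → par v < v) (hn : 0 < n) (dep : ℕ → ℕ)
    (hd : ∀ v, 0 < v → v < n → dep (par v) + 1 ≤ dep v) (v : Fin n) :
    (parentGraph n par).dist v ⟨0, hn⟩ ≤ dep v.val := by
  have key : ∀ v (hv : v < n), (parentGraph n par).dist ⟨v, hv⟩ ⟨0, hn⟩ ≤ dep v := by
    intro v
    induction v using Nat.strong_induction_on with
    | _ v ih =>
      intro hv
      rcases Nat.eq_zero_or_pos v with h | h
      · subst h
        simp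
      · have h1 := ih (par v) (hpar v h) ((hpar v h).trans hv)
        have h2 := (connected (n := n) hpar hn).dist_triangle (u := ⟨v, hv⟩)
          (v := ⟨par v, (hpar v h).trans hv⟩) (w := ⟨0, hn⟩)
        have h3 : (parentGraph n par).dist ⟨v, hv⟩ ⟨par v, (hpar v h).trans hv⟩ = 1 :=
          SimpleGraph.dist_eq_one_iff_adj.mpr (adj_parent hpar v hv h)
        have h4 := hd v h hv
        omega
  exact key v.val v.isLt

end Pool.Agent.Q262.Tree
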